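import Mathlib
import Pool.Agent.H.MP_24ca2e_an.B
import Pool.Agent.H.MP_24ca2e_an.C

namespace Pool.Agent.Results.MP_24ca2e_an.Sphere

/-- vertices of the universal cover: a vertex of the graph and an element of its fundamental group -/
abbrev Vtx := Option (Fin 3) × FreeGroup (Fin 3)
noncomputable abbrev L2 := lp (fun _ : Vtx => ℂ) 2
/-- parameters: vertex values, values on the first edges, values on the second edges -/
abbrev Par := (Option (Fin 3) → ℝ) × (Fin 3 → ℝ) × (Fin 3 → ℝ)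

noncomputable abbrev Op := L2 →L[ℂ] L2

def Jac (J : Par) (u w : Vtx → ℂ) : Prop :=
  ∀ g : FreeGroup (Fin 3),
    w (none, g) = J.1 none * u (none, g) +
      ∑ i, (J.2.1 i * u (some i, g) + J.2.2 i * u (some i, g * (FreeGroup.of i)⁻¹)) ∧
    ∀ i, w (some i, g) = J.1 (some i) * u (some i, g) +
      (J.2.1 i * u (none, g) + J.2.2 i * u (none, g * FreeGroup.of i))

def IsLift (J : Par) (H : Op) : Prop := ∀ u : L2, Jac J u (H u)

noncomputable def fcalc {A : Type} [CStarAlgebra A] (f : ℝ → ℝ) (H : A) : A :=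
  cfc (fun z : ℂ => ((f z.re : ℝ) : ℂ)) H

noncomputable def diag (X : Op) (y : Vtx) : ℂ := X (lp.single 2 y 1) y

noncomputable def dos (H : Op) (f : ℝ → ℝ) : ℂ :=
  (1 / 4) * ∑ x : Option (Fin 3), diag (fcalc f H) (x, 1)

def IsoDOS (J₀ : Par) : Set Par :=
  {J | (∀ i, 0 < J.2.1 i ∧ 0 < J.2.2 i) ∧
    ∀ H H₀, IsLift J H → IsLift J₀ H₀ → ∀ f : ℝ → ℝ, Continuous f → dos H f = dos H₀ f}

open Pool.Agent.H.MP_24ca2e_an in
theorem result :
    (∀ J : Par, ∃! H, IsLift J H) ∧ (∀ J H, IsLift J H → IsSelfAdjoint H) ∧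
    ∃ J₀ : Par, J₀ ∈ IsoDOS J₀ ∧
      Nonempty (IsoDOS J₀ ≃ₜ Metric.sphere (0 : EuclideanSpace ℝ (Fin 3)) 1) ∧
      connectedComponentIn (IsoDOS J₀) J₀ = IsoDOS J₀ ∧
      ∀ k : ℕ, IsEmpty (connectedComponentIn (IsoDOS J₀) J₀ ≃ₜ (Fin k → Circle)) := by
  have hl : ∀ J : Par, IsLift J (H J.1 J.2.1 J.2.2) := fun J u g => ⟨H_none _ _ _ _ _, fun i => H_some _ _ _ _ _ _⟩
  have hu : ∀ (J : Par) X, IsLift J X → X = H J.1 J.2.1 J.2.2 := fun J X h => by
    ext u ⟨_ | i, g⟩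
    · rw [(h u g).1, H_none]
    · rw [(h u g).2, H_some]
  have hd : ∀ X f, dos X f = (1 / 4) * τ (F f X) := fun X f => rfl
  have hI : IsoDOS (0, a0, c0) = {J | (∀ i, 0 < J.2.1 i ∧ 0 < J.2.2 i) ∧ J.1 = 0 ∧ (∀ i, J.2.1 i * J.2.2 i = 1) ∧
      ∑ i, (J.2.1 i ^ 2 + J.2.2 i ^ 2) = 33 / 4} := by
    ext J
    refine and_congr_right fun hp => ?_
    rw [← same_iff _ _ _ (fun i => (hp i).1) (fun i => (hp i).2)]
    constructor
    · intro h f hf
      have := h _ _ (hl J) (hl _) f hf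
      rw [hd, hd] at this
      exact mul_left_cancel₀ (by norm_num) this
    · intro h X X0 h1 h2 f hf
      rw [hu _ _ h1, hu _ _ h2, hd, hd, h f hf]
  have hJ : ((0, a0, c0) : Par) ∈ IsoDOS (0, a0, c0) := by
    rw [hI]
    refine ⟨fun i => ?_, rfl, fun i => congrFun t0 i, S0⟩
    fin_cases i <;> simp [a0, c0]
  have hs : ∀ y : ℝ, |3 / 4 * y| < √((3 / 4 * y) ^ 2 + 1) := fun y => by
    rw [← Real.sqrt_sq_eq_abs]; exact Real.sqrt_lt_sqrt (sq_nonneg _) (by linarith)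
  have hq : ∀ y : ℝ, √((3 / 4 * y) ^ 2 + 1) ^ 2 = (3 / 4 * y) ^ 2 + 1 := fun y => Real.sq_sqrt (by positivity)
  have hh : Nonempty (IsoDOS (0, a0, c0) ≃ₜ Metric.sphere (0 : EuclideanSpace ℝ (Fin 3)) 1) := by
    rw [hI]
    refine ⟨⟨⟨fun J => ⟨WithLp.toLp 2 fun i => 2 / 3 * (J.1.2.1 i - J.1.2.2 i), ?_⟩,
      fun y => ⟨(0, fun i => √((3 / 4 * y.1 i) ^ 2 + 1) + 3 / 4 * y.1 i,
        fun i => √((3 / 4 * y.1 i) ^ 2 + 1) - 3 / 4 * y.1 i), ?_⟩, ?_, ?_⟩, ?_, ?_⟩⟩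
    · obtain ⟨J, -, -, h2, h3⟩ := J
      rw [mem_sphere_zero_iff_norm, EuclideanSpace.norm_eq, Real.sqrt_eq_one]
      simp only [Fin.sum_univ_three, Real.norm_eq_abs, sq_abs] at h3 ⊢
      linarith [h2 0, h2 1, h2 2]
    · obtain ⟨y, hy⟩ := y
      rw [mem_sphere_zero_iff_norm, EuclideanSpace.norm_eq, Real.sqrt_eq_one] at hy
      refine ⟨fun i => ?_, rfl, fun i => ?_, ?_⟩
      · have := abs_lt.1 (hs (y i))
        constructor <;> simp only <;> linarith [this.1, this.2]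
      · simp only
        linarith [hq (y i)]
      · simp only [Fin.sum_univ_three, Real.norm_eq_abs, sq_abs] at hy ⊢
        linarith [hq (y 0), hq (y 1), hq (y 2)]
    · rintro ⟨⟨b, a, c⟩, h0, h1, h2, h3⟩
      have e : ∀ i, √((3 / 4 * (2 / 3 * (a i - c i))) ^ 2 + 1) = (a i + c i) / 2 := fun i => by
        rw [Real.sqrt_eq_iff_mul_self_eq (by positivity) (by linarith [(h0 i).1, (h0 i).2])]
        linarith [h2 i]
      refine Subtype.ext (Prod.ext h1.symm (Prod.ext ?_ ?_)) <;> ext i <;> simp only [e] <;> ring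
    · rintro ⟨y, hy⟩
      ext i
      simp only
      ring
    · refine Continuous.subtype_mk ?_ _
      fun_prop
    · refine Continuous.subtype_mk ?_ _
      fun_prop
  obtain ⟨e⟩ := hh
  have hc : IsPreconnected (IsoDOS (0, a0, c0)) := by
    have : ConnectedSpace (Metric.sphere (0 : EuclideanSpace ℝ (Fin 3)) 1) :=
      isConnected_iff_connectedSpace.1 (isConnected_sphere (by simp [← Module.finrank_eq_rank]) _ zero_le_one)
    have : ConnectedSpace (IsoDOS (0, a0, c0)) := e.symm.surjective.connectedSpace e.symm.continuous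
    exact (isConnected_iff_connectedSpace.2 this).isPreconnected
  have hcc := hc.connectedComponentIn hJ
  refine ⟨fun J => ⟨_, hl J, fun X h => hu J X h⟩, fun J X h => by rw [hu J X h]; exact H_sa _ _ _,
    (0, a0, c0), hJ, ⟨e⟩, hcc, fun k => ?_⟩
  rw [hcc]
  exact ⟨fun h => (not_torus k).false (e.symm.trans h)⟩

end Pool.Agent.Results.MP_24ca2e_an.Sphere
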